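import Mathlib

set_option autoImplicit false

open Finset MeasureTheory Filter Topology ProbabilityTheory

namespace Pool.Agent.W221.RGE

lemma taylor_exp (x : ℝ) (m : ℕ) : ∀ t ∈ Set.Icc (0:ℝ) 1,
    ‖Complex.exp (Complex.I * x * t) - ∑ k ∈ range m, (Complex.I * x * t) ^ k / (k.factorial : ℂ)‖ ≤
      (|x| * t) ^ m / (m.factorial : ℝ) := by
  induction m with
  | zero =>
    intro t ht
    have h1 : Complex.I * x * t = ((x * t : ℝ) : ℂ) * Complex.I := by push_cast; ring
    simp only [range_zero, sum_empty, sub_zero, pow_zero, Nat.factorial_zero, Nat.cast_one, div_one]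
    rw [h1, Complex.norm_exp_ofReal_mul_I]
  | succ m ih =>
    have hd : ∀ t : ℝ, HasDerivAt (fun t : ℝ => Complex.exp (Complex.I * x * t) -
        ∑ k ∈ range (m + 1), (Complex.I * x * t) ^ k / (k.factorial : ℂ))
        (Complex.I * x * (Complex.exp (Complex.I * x * t) -
        ∑ k ∈ range m, (Complex.I * x * t) ^ k / (k.factorial : ℂ))) t := by
      intro t
      have h0 : HasDerivAt (fun t : ℝ => Complex.I * x * (t : ℂ)) (Complex.I * x) t := by
        have := (Complex.ofRealCLM.hasDerivAt (x := t)).const_mul (Complex.I * (x : ℂ))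
        simpa using this
      have h1 := h0.cexp
      have h2 : HasDerivAt (fun t : ℝ =>
          ∑ k ∈ range (m + 1), (Complex.I * x * t) ^ k / (k.factorial : ℂ))
          (∑ k ∈ range (m + 1), ((k : ℂ) * (Complex.I * x * t) ^ (k - 1) * (Complex.I * x)) /
            (k.factorial : ℂ)) t := by
        apply HasDerivAt.fun_sum
        intro k _
        exact (h0.pow k).div_const _
      have h3 := h1.sub h2
      refine h3.congr_deriv ?_
      rw [sum_range_succ' (fun k : ℕ => ((k : ℂ) * (Complex.I * x * t) ^ (k - 1) * (Complex.I * x)) /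
            (k.factorial : ℂ))]
      simp only [Nat.cast_zero, zero_mul, zero_div, add_zero, Nat.add_sub_cancel]
      rw [mul_sub, mul_comm (Complex.exp _), mul_sum]
      congr 1
      apply sum_congr rfl
      intro k _
      rw [Nat.factorial_succ]
      have h4 : ((k : ℂ) + 1) ≠ 0 := Nat.cast_add_one_ne_zero k
      have h5 : (k.factorial : ℂ) ≠ 0 := by exact_mod_cast k.factorial_ne_zero
      push_cast
      field_simp
    have hB : ∀ t : ℝ, HasDerivAt (fun t : ℝ => (|x| * t) ^ (m + 1) / ((m + 1).factorial : ℝ))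
        (|x| * ((|x| * t) ^ m / (m.factorial : ℝ))) t := by
      intro t
      have h0 : HasDerivAt (fun t : ℝ => |x| * t) (|x|) t := by
        simpa using (hasDerivAt_id t).const_mul (|x|)
      have h1 := (h0.pow (m + 1)).div_const ((m + 1).factorial : ℝ)
      refine h1.congr_deriv ?_
      rw [Nat.factorial_succ]
      have h4 : ((m : ℝ) + 1) ≠ 0 := Nat.cast_add_one_ne_zero m
      have h5 : (m.factorial : ℝ) ≠ 0 := by exact_mod_cast m.factorial_ne_zero
      push_cast
      have h6 : m + 1 - 1 = m := by omega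
      try rw [h6]
      field_simp
    intro t ht
    have key := image_norm_le_of_norm_deriv_right_le_deriv_boundary (a := 0) (b := 1)
      (f := fun t : ℝ => Complex.exp (Complex.I * x * t) -
        ∑ k ∈ range (m + 1), (Complex.I * x * t) ^ k / (k.factorial : ℂ))
      (f' := fun t : ℝ => (Complex.I * x * (Complex.exp (Complex.I * x * t) -
        ∑ k ∈ range m, (Complex.I * x * t) ^ k / (k.factorial : ℂ))))
      (fun t _ => (hd t).continuousAt.continuousWithinAt)
      (fun t _ => (hd t).hasDerivWithinAt)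
      (B := fun t : ℝ => (|x| * t) ^ (m + 1) / ((m + 1).factorial : ℝ))
      (B' := fun t : ℝ => (|x| * ((|x| * t) ^ m / (m.factorial : ℝ))))
      (by
        simp [sum_range_succ']) (fun t => hB t)
      (by
        intro t ht
        rw [norm_mul, norm_mul, Complex.norm_I, one_mul, Complex.norm_real, Real.norm_eq_abs]
        exact mul_le_mul_of_nonneg_left (ih t ⟨ht.1, ht.2.le⟩) (abs_nonneg _))
    exact key ht

lemma taylor_exp' (y : ℝ) (m : ℕ) :
    ‖Complex.exp (Complex.I * y) - ∑ k ∈ range m, (Complex.I * y) ^ k / (k.factorial : ℂ)‖ ≤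
      |y| ^ m / (m.factorial : ℝ) := by
  have h := taylor_exp y m 1 ⟨zero_le_one, le_refl _⟩
  simpa using h

/-- moments of the standard normal law -/
noncomputable def gm (k : ℕ) : ℝ := if Even k then ((k - 1).doubleFactorial : ℝ) else 0

lemma df_mul (j : ℕ) : ((2 * j - 1).doubleFactorial : ℝ) * (2 ^ j * (j.factorial : ℝ)) = ((2 * j).factorial : ℝ) := by
  rcases j with _ | j
  · simp
  · have h1 : (2 * (j + 1)).factorial = (2 * (j + 1)).doubleFactorial * (2 * j + 1).doubleFactorial := by
      have := Nat.factorial_eq_mul_doubleFactorial (2 * j + 1)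
      simpa [mul_add, add_assoc] using this
    have h2 := Nat.doubleFactorial_two_mul (j + 1)
    have h3 : 2 * (j + 1) - 1 = 2 * j + 1 := by omega
    rw [h1, h3, h2]
    push_cast
    ring

lemma gm_even (j : ℕ) : gm (2 * j) / ((2 * j).factorial : ℝ) = 1 / (2 ^ j * (j.factorial : ℝ)) := by
  unfold gm
  rw [if_pos (even_two_mul j), div_eq_div_iff (by positivity) (by positivity), one_mul]
  exact df_mul j

lemma gm_odd (j : ℕ) : gm (2 * j + 1) = 0 := by
  unfold gm
  rw [if_neg]
  simp

lemma psum (s : ℝ) (r : ℕ) : ∑ k ∈ range (2 * r), (Complex.I * s) ^ k / (k.factorial : ℂ) * (gm k : ℂ) =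
    ∑ j ∈ range r, (-(s : ℂ) ^ 2 / 2) ^ j / (j.factorial : ℂ) := by
  induction r with
  | zero => simp
  | succ r ih =>
    rw [show 2 * (r + 1) = 2 * r + 1 + 1 by ring, sum_range_succ, sum_range_succ, ih, gm_odd,
      sum_range_succ]
    have h1 : (Complex.I * s) ^ (2 * r) / ((2 * r).factorial : ℂ) * (gm (2 * r) : ℂ) =
        (-(s : ℂ) ^ 2 / 2) ^ r / (r.factorial : ℂ) := by
      have h2 := gm_even r
      have h3 : (gm (2 * r) : ℂ) / ((2 * r).factorial : ℂ) = 1 / (2 ^ r * (r.factorial : ℂ)) := by
        have h6 := congrArg (fun z : ℝ => (z : ℂ)) h2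
        push_cast at h6
        exact h6
      have h4 : (Complex.I * s) ^ (2 * r) = (-(s : ℂ) ^ 2) ^ r := by
        rw [pow_mul, mul_pow, Complex.I_sq]; ring
      rw [h4, div_mul_eq_mul_div, mul_div_assoc, h3, div_pow]
      have h5 : (r.factorial : ℂ) ≠ 0 := by exact_mod_cast r.factorial_ne_zero
      field_simp
    rw [h1]
    simp

end Pool.Agent.W221.RGE
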